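import Pool.Agent.H66.SP.Eigs
import Pool.Agent.H95.SQ.Qb
import Pool.Agent.H95.SQ.Kill2

/-!
# `m ≥ 400` random roots control in one large characteristic (copy of `SQ/FinL1.lean`)
-/

set_option autoImplicit false

namespace Pool.Agent.H95.SR

open Matrix Classical Pool.Agent.H66.SP Pool.Agent.H95.SQ

theorem fin_large_one (m : ℕ) (hm : 400 ≤ m) (p : ℕ) [Fact p.Prime] {V : Type*} [Fintype V] [DecidableEq V]
    (G : SimpleGraph V) (s N : ℕ) (hNS : NS s G) (hN : N * 40 * 40 ≤ s)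
    (z : ℝ) (hz0 : 0 < z) (hz : gg p N ≤ z) (hz1 : z ≤ 1)
    (hmult : ∀ μ : KK p, mult (adj (KK p) G) μ ≤ 80) :
    (((Finset.univ : Finset (Fin m → V → Bool)).filter (fun b => ¬ CtlP p G b)).card : ℝ) ≤
      2 ^ (Fintype.card V * m) *
        (Fintype.card V * ((17 / 16) ^ m * 16 ^ 80 * z ^ 320)) := by
  obtain ⟨S, hS, hSμ⟩ := card_eigs (adj (KK p) G)
  have hp1 : 1 ≤ p := (Fact.out : p.Prime).one_lt.le
  have hsub : ((Finset.univ : Finset (Fin m → V → Bool)).filter (fun b => ¬ CtlP p G b)) ⊆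
      S.biUnion (fun μ => (Finset.univ : Finset (Fin m → V → Bool)).filter
        (fun b => ∃ x ∈ eig (adj (KK p) G) μ, x ≠ 0 ∧ ∀ i, bv (KK p) (b i) ⬝ᵥ x = 0)) := by
    intro b hb
    rw [Finset.mem_filter] at hb
    have hb2 := hb.2
    unfold CtlP Ctl at hb2
    push Not at hb2
    obtain ⟨μ, x, hx, hi, hx0⟩ := hb2
    rw [Finset.mem_biUnion]
    refine ⟨μ, hSμ μ ?_, ?_⟩
    · intro hbot
      rw [hbot, Submodule.mem_bot] at hx
      exact hx0 hx
    · rw [Finset.mem_filter]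
      exact ⟨Finset.mem_univ _, x, hx, hx0, hi⟩
  have hone : ∀ μ ∈ S, (((Finset.univ : Finset (Fin m → V → Bool)).filter
      (fun b => ∃ x ∈ eig (adj (KK p) G) μ, x ≠ 0 ∧ ∀ i, bv (KK p) (b i) ⬝ᵥ x = 0)).card : ℝ) ≤
      2 ^ (Fintype.card V * m) * ((17 / 16) ^ m * 16 ^ 80 * z ^ 320) := by
    intro μ _
    refine (kill2 m 80 (eig (adj (KK p) G) μ) (hmult μ) (by omega) z hz0 hz1 ?_).trans ?_
    rotate_left
    · refine mul_le_mul_of_nonneg_left (mul_le_mul_of_nonneg_left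
        (pow_le_pow_of_le_one hz0.le hz1 (by omega)) (by positivity)) (by positivity)
    intro E' hE' hne
    refine (orth_le' p G s 40 N hNS (by norm_num) hN μ E' hE').trans ?_
    refine mul_le_mul_of_nonneg_left ?_ (by positivity)
    have hfr : 1 ≤ Module.finrank (KK p) E' := by
      rw [Nat.one_le_iff_ne_zero]
      intro h0
      exact hne (Submodule.finrank_eq_zero.1 h0)
    have he : 1 ≤ min ((Module.finrank (KK p) E' + 1) / 2) 40 := by omega
    calc gg p N ^ (min ((Module.finrank (KK p) E' + 1) / 2) 40) ≤ gg p N ^ 1 :=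
          pow_le_pow_of_le_one (gg_nonneg p N) (gg_le_one p N hp1) he
      _ = gg p N := pow_one _
      _ ≤ z := hz
  calc (((Finset.univ : Finset (Fin m → V → Bool)).filter (fun b => ¬ CtlP p G b)).card : ℝ)
      ≤ ((S.biUnion (fun μ => (Finset.univ : Finset (Fin m → V → Bool)).filter
        (fun b => ∃ x ∈ eig (adj (KK p) G) μ, x ≠ 0 ∧
          ∀ i, bv (KK p) (b i) ⬝ᵥ x = 0))).card : ℝ) := by
        exact_mod_cast Finset.card_le_card hsub
    _ ≤ ∑ μ ∈ S, (((Finset.univ : Finset (Fin m → V → Bool)).filter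
        (fun b => ∃ x ∈ eig (adj (KK p) G) μ, x ≠ 0 ∧
          ∀ i, bv (KK p) (b i) ⬝ᵥ x = 0)).card : ℝ) := by
        exact_mod_cast Finset.card_biUnion_le
    _ ≤ ∑ _μ ∈ S, 2 ^ (Fintype.card V * m) * ((17 / 16) ^ m * 16 ^ 80 * z ^ 320) :=
        Finset.sum_le_sum hone
    _ = S.card * (2 ^ (Fintype.card V * m) * ((17 / 16) ^ m * 16 ^ 80 * z ^ 320)) := by
        rw [Finset.sum_const, nsmul_eq_mul]
    _ ≤ Fintype.card V * (2 ^ (Fintype.card V * m) *
        ((17 / 16) ^ m * 16 ^ 80 * z ^ 320)) := by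
        refine mul_le_mul_of_nonneg_right ?_ (by positivity)
        exact_mod_cast hS
    _ = 2 ^ (Fintype.card V * m) *
        (Fintype.card V * ((17 / 16) ^ m * 16 ^ 80 * z ^ 320)) := by ring

end Pool.Agent.H95.SR
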