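import Pool.Agent.H95.SQ.Bad
import Pool.Agent.H95.SQ.Par

/-!
# The invariant with a parameter

`OKT t n q p₀ G` is `OKK n q p₀ G` with `30` replaced by `t`, `delT` is `del` with `30` replaced by
`t`.
-/

set_option autoImplicit false

namespace Pool.Agent.H95.SR

open Matrix Classical Pool.Agent.H66.SP Pool.Agent.H95.SQ

/-- the invariant of the vertex exposure with parameter `t` -/
def OKT (t n q p₀ : ℕ) [Fact p₀.Prime] {V : Type*} [Fintype V] (G : SimpleGraph V) : Prop :=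
  NS (Fintype.card V / 400) G ∧
  (∀ μ : KK p₀, mult (adj (KK p₀) G) μ ≤ max 40 (2 * (n / 4) - Fintype.card V)) ∧
  (n / 2 ≤ Fintype.card V →
    (∀ (p : ℕ) [Fact p.Prime] (μ : KK p), p ≤ q →
      mult (adj (KK p) G) μ ≤ max (t + (n - Fintype.card V)) (2 * (n / 2) - Fintype.card V)) ∧
    (∀ (p : ℕ) [Fact p.Prime] (μ : KK p), q < p →
      mult (adj (KK p) G) μ ≤ max (80 + (n - Fintype.card V)) (2 * (n / 2) - Fintype.card V)))

/-- the bound for one step -/
noncomputable def delT (t n q T₂ k : ℕ) (z : ℝ) : ℝ :=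
  k * z ^ 20 + 2 * (k : ℝ) ^ 4 * z ^ 40 + 3 * k * q * (1 / 2) ^ T₂ +
    48 * (1 / 2) ^ ((t + (n - 1 - k)) / 2)

end Pool.Agent.H95.SR
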