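import Pool.Agent.H66.SP.Eigs
import Pool.Agent.H95.SQ.FinS
import Pool.Agent.H95.SR.Defs

/-!
# Job SR-FinS: `t + 2 a` random roots control in a small characteristic

The proof is that of `fin_small_one` in `Pool/Agent/H95/SQ/FinS.lean` (proved; there `t = 30`,
`a = 185`, `t + 2 a = 400`), with `m = t + 2 a` instead of `400`, `t` instead of `30`, `2 a` instead
of `370`, `a` instead of `185`: `kill2 m t ...` gives the exponent `m - t = 2 a`; the eigenvalues with
`(d + 1) / 2 ≥ T` contribute at most `k c^(2 a T)`, `c = 1.01 / p`, the others at most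
`∑_{d ≥ 1} (p c^a)^d ≤ 2 p c^a = 2 * 1.01^a * (1/p)^(a - 1)` (`finS_sum`), as
`p c^a = 1.01 (1.01/p)^(a-1) ≤ 1.01 * 0.505^(a-1) ≤ 1/2` for `a ≥ 3`.
-/

set_option autoImplicit false

namespace Pool.Agent.H95.SR

open Matrix Classical Pool.Agent.H66.SP Pool.Agent.H95.SQ

theorem fin_small_one (t a : ℕ) (ha : 3 ≤ a) (p : ℕ) [Fact p.Prime] {V : Type*} [Fintype V]
    [DecidableEq V] (G : SimpleGraph V) (s T N : ℕ) (hNS : NS s G) (hT : 100 ≤ T)
    (hN : N * T * T ≤ s) (hg : gg p N ≤ (1 / (p : ℝ)) * (1 + 1 / T))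
    (hmult : ∀ μ : KK p, mult (adj (KK p) G) μ ≤ t) :
    (((Finset.univ : Finset (Fin (t + 2 * a) → V → Bool)).filter
      (fun b => ¬ CtlP p G b)).card : ℝ) ≤
      2 ^ (Fintype.card V * (t + 2 * a)) * ((17 / 16) ^ (t + 2 * a) * 16 ^ t *
        (Fintype.card V * (1.01 / (p : ℝ)) ^ (2 * a * T) +
          2 * 1.01 ^ a * (1 / (p : ℝ)) ^ (a - 1))) := by
  have hp1 : 1 ≤ p := (Fact.out : p.Prime).one_lt.le
  have hp2 : 2 ≤ p := (Fact.out : p.Prime).two_le
  have hp2R : (2 : ℝ) ≤ p := by exact_mod_cast hp2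
  have hp0R : (0 : ℝ) < p := by linarith
  obtain ⟨g, hgdef⟩ : ∃ g, g = gg p N := ⟨_, rfl⟩
  have hg0 : 0 < g := by rw [hgdef]; exact gg_pos p N hp1
  have hg1 : g ≤ 1 := by rw [hgdef]; exact gg_le_one p N hp1
  have hTR : (100 : ℝ) ≤ T := by exact_mod_cast hT
  obtain ⟨c, hc⟩ : ∃ c : ℝ, c = 1.01 / (p : ℝ) := ⟨_, rfl⟩
  have hc0 : 0 < c := by rw [hc]; positivity
  have hc1 : c ≤ 1 := by
    rw [hc, div_le_one hp0R]
    linarith
  have hgc : g ≤ c := by
    rw [hgdef, hc]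
    refine hg.trans ?_
    have h1 : (1 : ℝ) / T ≤ 1 / 100 := one_div_le_one_div_of_le (by norm_num) hTR
    calc (1 / (p : ℝ)) * (1 + 1 / T) ≤ (1 / (p : ℝ)) * (1 + 1 / 100) := by
          refine mul_le_mul_of_nonneg_left (by linarith) (by positivity)
      _ = 1.01 / (p : ℝ) := by
          norm_num
          ring
  obtain ⟨S, hScard, hS⟩ := card_eigs (adj (KK p) G)
  let bad : KK p → Finset (Fin (t + 2 * a) → V → Bool) := fun μ =>
    (Finset.univ : Finset (Fin (t + 2 * a) → V → Bool)).filter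
      (fun b => ∃ x ∈ eig (adj (KK p) G) μ, x ≠ 0 ∧ ∀ i, bv (KK p) (b i) ⬝ᵥ x = 0)
  have hbad : ∀ μ, ((bad μ).card : ℝ) ≤ 2 ^ (Fintype.card V * (t + 2 * a)) *
      ((17 / 16) ^ (t + 2 * a) * 16 ^ t * (g ^ (min ((dg p μ + 1) / 2) T)) ^ (t + 2 * a - t)) := by
    intro μ
    refine kill2 (t + 2 * a) t (eig (adj (KK p) G) μ) (hmult μ) (by omega)
      (g ^ (min ((dg p μ + 1) / 2) T)) (pow_pos hg0 _) (pow_le_one₀ hg0.le hg1) ?_
    intro E' hE' hE'0
    have h1 := orth_le p G s T N hNS (by omega) hN μ E' hE'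
    rw [← hgdef] at h1
    refine h1.trans (mul_le_mul_of_nonneg_left (pow_le_pow_of_le_one hg0.le hg1 ?_)
      (by positivity))
    refine min_le_min ?_ le_rfl
    have h2 : 0 < Module.finrank (KK p) E' := by
      rw [Module.finrank_pos_iff]
      exact Submodule.nontrivial_iff_ne_bot.mpr hE'0
    have h3 := Nat.le_mul_of_pos_right (dg p μ) h2
    omega
  have hcov : (Finset.univ : Finset (Fin (t + 2 * a) → V → Bool)).filter (fun b => ¬ CtlP p G b) ⊆
      S.biUnion bad := by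
    intro b hb
    have h1 := (Finset.mem_filter.1 hb).2
    unfold CtlP Ctl at h1
    push Not at h1
    obtain ⟨μ, x, hx, hxb, hx0⟩ := h1
    rw [Finset.mem_biUnion]
    refine ⟨μ, hS μ ?_, Finset.mem_filter.2 ⟨Finset.mem_univ _, x, hx, hx0, hxb⟩⟩
    intro h2
    rw [h2, Submodule.mem_bot] at hx
    exact hx0 hx
  have h1 : (((Finset.univ : Finset (Fin (t + 2 * a) → V → Bool)).filter
      (fun b => ¬ CtlP p G b)).card : ℝ) ≤ ∑ μ ∈ S, ((bad μ).card : ℝ) := by
    have h2 := (Finset.card_le_card hcov).trans Finset.card_biUnion_le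
    exact_mod_cast h2
  refine h1.trans ((Finset.sum_le_sum fun μ _ => hbad μ).trans ?_)
  rw [← Finset.mul_sum, ← Finset.mul_sum]
  refine mul_le_mul_of_nonneg_left (mul_le_mul_of_nonneg_left ?_ (by positivity)) (by positivity)
  -- the sum over the eigenvalues
  have h3 : ∀ μ ∈ S, (g ^ (min ((dg p μ + 1) / 2) T)) ^ (t + 2 * a - t) ≤
      c ^ (2 * a * T) + (c ^ a) ^ (dg p μ) := by
    intro μ _
    rw [← pow_mul]
    have hA : 0 ≤ c ^ (2 * a * T) := by positivity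
    have hB : 0 ≤ (c ^ a) ^ (dg p μ) := by positivity
    rcases le_total T ((dg p μ + 1) / 2) with h | h
    · rw [min_eq_right h]
      have h4 : g ^ (T * (t + 2 * a - t)) ≤ c ^ (2 * a * T) := by
        rw [show T * (t + 2 * a - t) = 2 * a * T by rw [Nat.add_sub_cancel_left]; ring]
        exact pow_le_pow_left₀ hg0.le hgc _
      linarith
    · rw [min_eq_left h]
      have h4 : g ^ ((dg p μ + 1) / 2 * (t + 2 * a - t)) ≤ (c ^ a) ^ (dg p μ) := by
        refine (pow_le_pow_left₀ hg0.le hgc _).trans ?_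
        rw [← pow_mul]
        refine pow_le_pow_of_le_one hc0.le hc1 ?_
        rw [Nat.add_sub_cancel_left]
        have h6 : dg p μ ≤ 2 * ((dg p μ + 1) / 2) := by omega
        calc a * dg p μ ≤ a * (2 * ((dg p μ + 1) / 2)) := Nat.mul_le_mul_left a h6
          _ = (dg p μ + 1) / 2 * (2 * a) := by ring
      linarith
  refine (Finset.sum_le_sum h3).trans ?_
  rw [Finset.sum_add_distrib, Finset.sum_const, nsmul_eq_mul, ← hc]
  refine add_le_add (mul_le_mul_of_nonneg_right (by exact_mod_cast hScard) (by positivity)) ?_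
  obtain ⟨b, rfl⟩ : ∃ b, a = b + 3 := ⟨a - 3, by omega⟩
  have hb2 : b + 3 - 1 = b + 2 := by omega
  rw [hb2]
  have hpc : (p : ℝ) * c ^ (b + 3) = 1.01 ^ (b + 3) * (1 / (p : ℝ)) ^ (b + 2) := by
    rw [hc, div_pow, one_div, inv_pow, pow_succ (p : ℝ) (b + 2)]
    field_simp
  have hr2 : (p : ℝ) * c ^ (b + 3) ≤ 1 / 2 := by
    rw [hpc]
    have hq : 1.01 * (1 / (p : ℝ)) ≤ 0.505 := by
      have h1 : (1 : ℝ) / p ≤ 1 / 2 := one_div_le_one_div_of_le (by norm_num) hp2R
      linarith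
    have hq0 : 0 ≤ 1.01 * (1 / (p : ℝ)) := by positivity
    calc (1.01 : ℝ) ^ (b + 3) * (1 / (p : ℝ)) ^ (b + 2)
        = 1.01 * (1.01 * (1 / (p : ℝ))) ^ (b + 2) := by
          rw [mul_pow, pow_succ (1.01 : ℝ) (b + 2)]
          ring
      _ ≤ 1.01 * (0.505 : ℝ) ^ (b + 2) := by
          refine mul_le_mul_of_nonneg_left (pow_le_pow_left₀ hq0 hq _) (by norm_num)
      _ ≤ 1.01 * (0.505 : ℝ) ^ 2 := by
          refine mul_le_mul_of_nonneg_left
            (pow_le_pow_of_le_one (by norm_num) (by norm_num) (by omega)) (by norm_num)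
      _ ≤ 1 / 2 := by norm_num
  have h5 := finS_sum p (c ^ (b + 3)) (by positivity) hr2 S
  refine h5.trans ?_
  rw [hpc]
  linarith

end Pool.Agent.H95.SR
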