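import Pool.Agent.H95.SQ.FinS2
import Pool.Agent.H95.SR.FinS

/-!
# Job SR-FinS2: `t + 2 a` random roots control in all small characteristics

Copy the proof of `fin_small` in `Pool/Agent/H95/SQ/FinS2.lean`: union bound over the primes
`2 ≤ p ≤ q` of `fin_small_one`; `∑_p (1/p)^(a-1) ≤ (1/2)^(a-3) ∑_{p ≥ 2} 1/p^2 ≤ (1/2)^(a-3)`
(`a ≥ 3`), `(1.01/p)^(2 a T) ≤ 0.505^(2 a T)`.
-/

set_option autoImplicit false

namespace Pool.Agent.H95.SR

open Matrix Classical Pool.Agent.H66.SP Pool.Agent.H95.SQ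

theorem srFinS2_sum (n : ℕ) :
    ∑ m ∈ Finset.Ico 2 (n + 2), (1 / (m : ℝ)) ^ 2 ≤ 1 - 1 / ((n : ℝ) + 1) := by
  induction n with
  | zero => simp
  | succ n ih =>
    rw [show n + 1 + 2 = (n + 2) + 1 by ring, Finset.sum_Ico_succ_top (by omega)]
    have h1 : (1 / ((n + 2 : ℕ) : ℝ)) ^ 2 ≤ 1 / ((n : ℝ) + 1) - 1 / (((n + 1 : ℕ) : ℝ) + 1) := by
      have h0 : (0 : ℝ) ≤ n := Nat.cast_nonneg n
      push_cast
      rw [div_sub_div _ _ (by positivity) (by positivity), one_div, inv_pow, ← one_div,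
        div_le_div_iff₀ (by positivity) (by positivity)]
      nlinarith
    linarith

theorem srFinS2_sum' (q : ℕ) : ∑ m ∈ Finset.Ico 2 (q + 1), (1 / (m : ℝ)) ^ 2 ≤ 1 := by
  rcases q with _ | q
  · simp
  · have h := srFinS2_sum q
    have h2 : (0 : ℝ) ≤ 1 / ((q : ℝ) + 1) := by positivity
    rw [show q + 1 + 1 = q + 2 by ring]
    linarith

theorem fin_small (t a : ℕ) (ha : 3 ≤ a) {V : Type*} [Fintype V] [DecidableEq V]
    (G : SimpleGraph V) (q s T N : ℕ) (hNS : NS s G) (hT : 100 ≤ T) (hN : N * T * T ≤ s)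
    (hg : ∀ p : ℕ, p.Prime → p ≤ q → gg p N ≤ (1 / (p : ℝ)) * (1 + 1 / T))
    (hmult : ∀ (p : ℕ) [Fact p.Prime] (μ : KK p), p ≤ q → mult (adj (KK p) G) μ ≤ t) :
    (((Finset.univ : Finset (Fin (t + 2 * a) → V → Bool)).filter
      (fun b => ∃ (p : ℕ) (_ : Fact p.Prime), p ≤ q ∧ ¬ CtlP p G b)).card : ℝ) ≤
      2 ^ (Fintype.card V * (t + 2 * a)) * ((17 / 16) ^ (t + 2 * a) * 16 ^ t *
        (q * Fintype.card V * (0.505 : ℝ) ^ (2 * a * T) + 2 * 1.01 ^ a * (1 / 2) ^ (a - 3))) := by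
  set P := (Finset.Ico 2 (q + 1)).filter Nat.Prime with hP
  set S : ℕ → Finset (Fin (t + 2 * a) → V → Bool) := fun p =>
    Finset.univ.filter (fun b => ∃ _ : Fact p.Prime, ¬ CtlP p G b) with hS
  have hsub : (Finset.univ : Finset (Fin (t + 2 * a) → V → Bool)).filter
      (fun b => ∃ (p : ℕ) (_ : Fact p.Prime), p ≤ q ∧ ¬ CtlP p G b) ⊆ P.biUnion S := by
    intro b hb
    rw [Finset.mem_filter] at hb
    obtain ⟨_, p, hp, hpq, hc⟩ := hb
    rw [Finset.mem_biUnion]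
    refine ⟨p, ?_, ?_⟩
    · rw [hP, Finset.mem_filter, Finset.mem_Ico]
      exact ⟨⟨hp.out.two_le, by omega⟩, hp.out⟩
    · rw [hS, Finset.mem_filter]
      exact ⟨Finset.mem_univ _, hp, hc⟩
  have h1 : (((Finset.univ : Finset (Fin (t + 2 * a) → V → Bool)).filter
      (fun b => ∃ (p : ℕ) (_ : Fact p.Prime), p ≤ q ∧ ¬ CtlP p G b)).card : ℝ) ≤
      ∑ p ∈ P, ((S p).card : ℝ) := by
    have h2 := (Finset.card_le_card hsub).trans Finset.card_biUnion_le
    exact_mod_cast h2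
  refine h1.trans ?_
  set C0 : ℝ := 2 ^ (Fintype.card V * (t + 2 * a)) with hC0
  set C1 : ℝ := (17 / 16) ^ (t + 2 * a) * 16 ^ t with hC1
  set D : ℝ := 2 * 1.01 ^ a with hD
  have hC0' : 0 ≤ C0 := by rw [hC0]; positivity
  have hC1' : 0 ≤ C1 := by rw [hC1]; positivity
  have hD' : 0 ≤ D := by rw [hD]; positivity
  have h3 : ∀ p ∈ P, ((S p).card : ℝ) ≤ C0 * (C1 * (Fintype.card V * (0.505 : ℝ) ^ (2 * a * T) +
      D * ((1 / 2) ^ (a - 3) * (1 / (p : ℝ)) ^ 2))) := by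
    intro p hp
    rw [hP, Finset.mem_filter, Finset.mem_Ico] at hp
    obtain ⟨⟨hp2, hpq⟩, hpp⟩ := hp
    have : Fact p.Prime := ⟨hpp⟩
    have hp2' : (2 : ℝ) ≤ p := by exact_mod_cast hp2
    have h4 := fin_small_one t a ha p G s T N hNS hT hN (hg p hpp (by omega))
      (fun μ => hmult p μ (by omega))
    have h5 : ((S p).card : ℝ) ≤ (((Finset.univ : Finset (Fin (t + 2 * a) → V → Bool)).filter
        (fun b => ¬ CtlP p G b)).card : ℝ) := by
      refine Nat.cast_le.2 (Finset.card_le_card ?_)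
      intro b hb
      rw [hS, Finset.mem_filter] at hb
      obtain ⟨_, hf, hc⟩ := hb
      rw [Finset.mem_filter]
      exact ⟨Finset.mem_univ _, hc⟩
    refine (h5.trans h4).trans ?_
    refine mul_le_mul_of_nonneg_left (mul_le_mul_of_nonneg_left (add_le_add ?_ ?_) hC1') hC0'
    · refine mul_le_mul_of_nonneg_left (pow_le_pow_left₀ (by positivity) ?_ _) (by positivity)
      rw [div_le_iff₀ (by linarith)]
      nlinarith
    · refine mul_le_mul_of_nonneg_left ?_ hD'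
      have e : a - 1 = (a - 3) + 2 := by omega
      rw [e, pow_add]
      refine mul_le_mul_of_nonneg_right (pow_le_pow_left₀ (by positivity) ?_ _) (by positivity)
      exact one_div_le_one_div_of_le (by norm_num) hp2'
  refine (Finset.sum_le_sum h3).trans ?_
  rw [← Finset.mul_sum, ← Finset.mul_sum]
  refine mul_le_mul_of_nonneg_left (mul_le_mul_of_nonneg_left ?_ hC1') hC0'
  rw [Finset.sum_add_distrib]
  refine add_le_add ?_ ?_
  · rw [Finset.sum_const, nsmul_eq_mul]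
    have h6 : (P.card : ℝ) ≤ q := by
      have : P.card ≤ q := by
        calc P.card ≤ (Finset.Ico 2 (q + 1)).card := Finset.card_filter_le _ _
          _ = q + 1 - 2 := Nat.card_Ico _ _
          _ ≤ q := by omega
      exact_mod_cast this
    have h7 : (0 : ℝ) ≤ Fintype.card V * (0.505 : ℝ) ^ (2 * a * T) := by positivity
    calc (P.card : ℝ) * (Fintype.card V * (0.505 : ℝ) ^ (2 * a * T))
        ≤ q * (Fintype.card V * (0.505 : ℝ) ^ (2 * a * T)) := mul_le_mul_of_nonneg_right h6 h7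
      _ = q * Fintype.card V * (0.505 : ℝ) ^ (2 * a * T) := by ring
  · rw [← Finset.mul_sum, ← Finset.mul_sum]
    have h8 : ∑ p ∈ P, (1 / (p : ℝ)) ^ 2 ≤ 1 := by
      refine (Finset.sum_le_sum_of_subset_of_nonneg (Finset.filter_subset _ _) ?_).trans
        (srFinS2_sum' q)
      intro i _ _
      positivity
    refine mul_le_mul_of_nonneg_left ?_ hD'
    calc (1 / 2 : ℝ) ^ (a - 3) * ∑ p ∈ P, (1 / (p : ℝ)) ^ 2 ≤ (1 / 2 : ℝ) ^ (a - 3) * 1 :=
          mul_le_mul_of_nonneg_left h8 (by positivity)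
      _ = (1 / 2 : ℝ) ^ (a - 3) := mul_one _

end Pool.Agent.H95.SR
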