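import Pool.Agent.H95.SQ.FinL
import Pool.Agent.H95.SR.FinS2
import Pool.Agent.H95.SR.FinL1

/-!
# Job SR-FinL: `60 + (t + 2 a)` random roots control in all characteristics

Copy the proof of `card_final2_le` in `Pool/Agent/H95/SQ/FinL.lean` (proved), with
`m = t + 2 a ≥ 400` instead of `400`, `t` instead of `30`, using `SR.fin_large_one` and `SR.fin_small`.
-/

set_option autoImplicit false

namespace Pool.Agent.H95.SR

open Matrix Classical Pool.Agent.H66.SP Pool.Agent.H95.SQ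

theorem card_finalT_le (t a : ℕ) (ha : 3 ≤ a) (hta : 400 ≤ t + 2 * a)
    (q p₀ s N₁ N₂ T₂ : ℕ) (z : ℝ) [Fact p₀.Prime] {V : Type*} [Fintype V]
    [DecidableEq V] (G : SimpleGraph V) (hNS : NS s G) (hq : q < p₀)
    (hN₁ : N₁ * 40 * 40 ≤ s) (hN₂ : N₂ * T₂ * T₂ ≤ s) (hT₂ : 100 ≤ T₂)
    (hz0 : 0 < z) (hz1 : z ≤ 1) (hL : ∀ p : ℕ, p.Prime → q < p → gg p N₁ ≤ z)
    (hS : ∀ p : ℕ, p.Prime → p ≤ q → gg p N₂ ≤ (1 / (p : ℝ)) * (1 + 1 / T₂))
    (h0 : ∀ μ : KK p₀, mult (adj (KK p₀) G) μ ≤ 40)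
    (hs : ∀ (p : ℕ) [Fact p.Prime] (μ : KK p), p ≤ q → mult (adj (KK p) G) μ ≤ t)
    (hl : ∀ (p : ℕ) [Fact p.Prime] (μ : KK p), q < p → mult (adj (KK p) G) μ ≤ 80) :
    (((Finset.univ : Finset (Fin 60 ⊕ Fin (t + 2 * a) → V → Bool)).filter
      (fun b => ¬ ∀ (p : ℕ) [Fact p.Prime], CtlP p G b)).card : ℝ) ≤
      2 ^ (Fintype.card V * (60 + (t + 2 * a))) *
        (Fintype.card V * ((17 / 16) ^ 60 * 16 ^ 40 * z ^ 20) +
          2 * (Fintype.card V : ℝ) ^ 4 * ((17 / 16) ^ (t + 2 * a) * 16 ^ 80 * z ^ 320) +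
          (17 / 16) ^ (t + 2 * a) * 16 ^ t *
            (q * Fintype.card V * (0.505 : ℝ) ^ (2 * a * T₂) +
              2 * 1.01 ^ a * (1 / 2) ^ (a - 3))) := by
  obtain ⟨m, hm⟩ : ∃ m, m = t + 2 * a := ⟨_, rfl⟩
  have hfs := SR.fin_small t a ha G q s T₂ N₂ hNS hT₂ hN₂ hS hs
  rw [← hm] at hta hfs ⊢
  have hP0 : ∀ b : Fin 60 → V → Bool, ∃ P : Finset ℕ, P.card ≤ 2 * Fintype.card V ^ 3 ∧
      (CtlC G b → ∀ (p : ℕ) [Fact p.Prime], p ∉ P → CtlP p G b) := by
    intro b
    by_cases h : CtlC G b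
    · obtain ⟨P, h1, h2⟩ := primes_ctrl G b h
      exact ⟨P, h1, fun _ => h2⟩
    · exact ⟨∅, by simp, fun h' => absurd h' h⟩
  choose P hPc hP using hP0
  have hkey : ∀ (B1 : Finset (Fin 60 → V → Bool)) (B2 : ℕ → Finset (Fin m → V → Bool))
      (B3 : Finset (Fin m → V → Bool))
      (S : Finset ((Fin 60 ⊕ Fin m) → V → Bool)) (x1 x2 x3 : ℝ) (_ : 0 ≤ x2)
      (_ : ∀ b ∈ S, (fun i => b (Sum.inl i)) ∈ B1 ∨
        (∃ p ∈ P (fun i => b (Sum.inl i)), (fun i => b (Sum.inr i)) ∈ B2 p) ∨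
        (fun i => b (Sum.inr i)) ∈ B3)
      (_ : (B1.card : ℝ) ≤ 2 ^ (Fintype.card V * 60) * (Fintype.card V * x1))
      (_ : ∀ p, ((B2 p).card : ℝ) ≤ 2 ^ (Fintype.card V * m) * (Fintype.card V * x2))
      (_ : (B3.card : ℝ) ≤ 2 ^ (Fintype.card V * m) * x3),
      (S.card : ℝ) ≤ 2 ^ (Fintype.card V * (60 + m)) *
        (Fintype.card V * x1 + 2 * (Fintype.card V : ℝ) ^ 4 * x2 + x3) := by
    intro B1 B2 B3 S x1 x2 x3 hx2 hS h1 h2 h3
    set k := Fintype.card V with hk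
    let T : Finset ((Fin 60 → V → Bool) × (Fin m → V → Bool)) :=
      (B1 ×ˢ Finset.univ ∪
        (Finset.univ : Finset (Fin 60 → V → Bool)).biUnion
          (fun b1 => ({b1} : Finset _) ×ˢ (P b1).biUnion B2)) ∪ Finset.univ ×ˢ B3
    have hcard : S.card ≤ T.card := by
      apply Finset.card_le_card_of_injOn
        (fun b => ((fun i => b (Sum.inl i)), (fun i => b (Sum.inr i))))
      · intro b hb
        simp only [T, Finset.coe_union, Finset.coe_product, Finset.mem_coe, Finset.mem_union,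
          Finset.mem_product, Finset.mem_univ, and_true, Finset.mem_biUnion, true_and,
          Finset.mem_singleton, Set.mem_union, Set.mem_prod, Finset.coe_univ, Set.mem_univ]
        rcases hS b hb with h | ⟨p, hp, hp2⟩ | h
        · left; left
          exact h
        · left; right
          exact ⟨fun i => b (Sum.inl i), rfl, p, hp, hp2⟩
        · right
          exact h
      · intro b _ b' _ hbb
        simp only [Prod.mk.injEq] at hbb
        funext i
        rcases i with i | i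
        · exact congrFun hbb.1 i
        · exact congrFun hbb.2 i
    have hu1 : (Finset.univ : Finset (Fin 60 → V → Bool)).card = 2 ^ (k * 60) := by
      rw [Finset.card_univ, Fintype.card_fun, Fintype.card_fun, Fintype.card_bool,
        Fintype.card_fin, ← pow_mul]
    have hu2 : (Finset.univ : Finset (Fin m → V → Bool)).card = 2 ^ (k * m) := by
      rw [Finset.card_univ, Fintype.card_fun, Fintype.card_fun, Fintype.card_bool,
        Fintype.card_fin, ← pow_mul]
    have hT : (T.card : ℝ) ≤ (B1.card * 2 ^ (k * m) +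
        ∑ b1 : Fin 60 → V → Bool, ∑ p ∈ P b1, ((B2 p).card : ℝ)) + 2 ^ (k * 60) * B3.card := by
      have e1 : T.card ≤ (B1.card * 2 ^ (k * m) +
          ∑ b1 : Fin 60 → V → Bool, ∑ p ∈ P b1, (B2 p).card) + 2 ^ (k * 60) * B3.card := by
        refine (Finset.card_union_le _ _).trans (Nat.add_le_add ((Finset.card_union_le _ _).trans
          (Nat.add_le_add ?_ ?_)) ?_)
        · rw [Finset.card_product, hu2]
        · refine Finset.card_biUnion_le.trans (Finset.sum_le_sum fun b1 _ => ?_)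
          rw [Finset.card_product, Finset.card_singleton, one_mul]
          exact Finset.card_biUnion_le
        · rw [Finset.card_product, hu1]
      exact_mod_cast e1
    have r3 : ∑ b1 : Fin 60 → V → Bool, ∑ p ∈ P b1, ((B2 p).card : ℝ) ≤
        2 ^ (k * 60) * (2 * (k : ℝ) ^ 3 * (2 ^ (k * m) * (k * x2))) := by
      have hnn : (0 : ℝ) ≤ 2 ^ (k * m) * (k * x2) := by positivity
      calc ∑ b1 : Fin 60 → V → Bool, ∑ p ∈ P b1, ((B2 p).card : ℝ)
          ≤ ∑ b1 : Fin 60 → V → Bool, (2 * (k : ℝ) ^ 3 * (2 ^ (k * m) * (k * x2))) := by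
            refine Finset.sum_le_sum fun b1 _ => ?_
            refine (Finset.sum_le_sum fun p _ => h2 p).trans ?_
            rw [Finset.sum_const, nsmul_eq_mul]
            refine mul_le_mul_of_nonneg_right ?_ hnn
            exact_mod_cast hPc b1
        _ = _ := by
            rw [Finset.sum_const, nsmul_eq_mul, hu1]
            push_cast
            ring
    have hS' : (S.card : ℝ) ≤ T.card := by exact_mod_cast hcard
    have r4 : (B1.card : ℝ) * 2 ^ (k * m) ≤
        2 ^ (k * 60) * (k * x1) * 2 ^ (k * m) :=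
      mul_le_mul_of_nonneg_right h1 (by positivity)
    have r5 : (2 : ℝ) ^ (k * 60) * B3.card ≤ 2 ^ (k * 60) * (2 ^ (k * m) * x3) :=
      mul_le_mul_of_nonneg_left h3 (by positivity)
    have e5 : (2 : ℝ) ^ (k * (60 + m)) = 2 ^ (k * 60) * 2 ^ (k * m) := by
      rw [← pow_add, ← mul_add]
    calc (S.card : ℝ) ≤ T.card := hS'
      _ ≤ _ := hT
      _ ≤ (2 ^ (k * 60) * (k * x1) * 2 ^ (k * m) +
          2 ^ (k * 60) * (2 * (k : ℝ) ^ 3 * (2 ^ (k * m) * (k * x2)))) +
          2 ^ (k * 60) * (2 ^ (k * m) * x3) := add_le_add (add_le_add r4 r3) r5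
      _ = _ := by
          rw [e5]
          ring
  have hlp0 : gg p₀ N₁ ≤ z := hL p₀ (Fact.out : p₀.Prime) hq
  have hx2 : (0 : ℝ) ≤ (17 / 16) ^ m * 16 ^ 80 * z ^ 320 := by positivity
  have hfin := hkey
    ((Finset.univ : Finset (Fin 60 → V → Bool)).filter (fun b => ¬ CtlP p₀ G b))
    (fun p => if hp : p.Prime ∧ q < p then
      (haveI : Fact p.Prime := ⟨hp.1⟩
       (Finset.univ : Finset (Fin m → V → Bool)).filter (fun b => ¬ CtlP p G b)) else ∅)
    ((Finset.univ : Finset (Fin m → V → Bool)).filter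
      (fun b => ∃ (p : ℕ) (_ : Fact p.Prime), p ≤ q ∧ ¬ CtlP p G b))
    ((Finset.univ : Finset (Fin 60 ⊕ Fin m → V → Bool)).filter
      (fun b => ¬ ∀ (p : ℕ) [Fact p.Prime], CtlP p G b))
    ((17 / 16) ^ 60 * 16 ^ 40 * z ^ 20) ((17 / 16) ^ m * 16 ^ 80 * z ^ 320)
    ((17 / 16) ^ m * 16 ^ t *
      (q * Fintype.card V * (0.505 : ℝ) ^ (2 * a * T₂) +
        2 * 1.01 ^ a * (1 / 2) ^ (a - 3))) hx2 ?_ ?_ ?_ ?_
  · exact hfin
  · intro b hb
    rw [Finset.mem_filter] at hb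
    have hb2 := hb.2
    push Not at hb2
    obtain ⟨p, hp, hpb⟩ := hb2
    by_cases hc0 : CtlP p₀ G (fun i => b (Sum.inl i))
    · right
      have hc : CtlC G (fun i => b (Sum.inl i)) := ctlC_of_ctlP p₀ G _ hc0
      have hr : ¬ CtlP p G (fun i => b (Sum.inr i)) := fun h => hpb
        (ctl_mono_finc _ _ (Sum.inr : Fin m → Fin 60 ⊕ Fin m) h)
      rcases Nat.lt_or_ge q p with hqp | hqp
      · left
        refine ⟨p, ?_, ?_⟩
        · by_contra hnp
          exact hpb (ctl_mono_finc _ _ (Sum.inl : Fin 60 → Fin 60 ⊕ Fin m) (hP _ hc p hnp))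
        · rw [dif_pos ⟨hp.out, hqp⟩, Finset.mem_filter]
          exact ⟨Finset.mem_univ _, hr⟩
      · right
        rw [Finset.mem_filter]
        exact ⟨Finset.mem_univ _, p, hp, hqp, hr⟩
    · left
      rw [Finset.mem_filter]
      exact ⟨Finset.mem_univ _, hc0⟩
  · exact card_not_ctl60 p₀ G s 40 N₁ hNS (by norm_num) hN₁ z hz0 hlp0 hz1 h0
  · intro p
    by_cases hp : p.Prime ∧ q < p
    · haveI : Fact p.Prime := ⟨hp.1⟩
      rw [dif_pos hp]
      exact SR.fin_large_one m hta p G s N₁ hNS hN₁ z hz0 (hL p hp.1 hp.2) hz1 (fun μ => hl p μ hp.2)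
    · rw [dif_neg hp]
      simp only [Finset.card_empty, Nat.cast_zero]
      positivity
  · exact hfs

end Pool.Agent.H95.SR
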