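import Pool.Agent.H95.SQ.NumD
import Pool.Agent.H95.SR.Defs

/-!
# Job SR-NumD: numerics of the induction, with parameters

As `numD` in `Pool/Agent/H95/SQ/NumD.lean` (proved; its lemmas `sum_half_div_le`, `zn_pow20`, ... may be
used).  For `n ≥ 2^50`, `k ≤ n` the first three terms of `delT` are together at most `1 / n^2`
(`k z^20 ≤ 16^5/n^4`, `2 k^4 z^40 ≤ 2 * 16^10/n^6`, `3 k q (1/2)^T ≤ 3 (1/2)^100/n^8`), sum over `k < n`: at
most `1 / n`.  `∑_{k < n} 48 (1/2)^((t + (n-1-k))/2) ≤ 48 (1/2)^(t/2) ∑_h (1/2)^(h/2) ≤ 192 (1/2)^(t/2) ≤ ε/2`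
(`(t + h)/2 ≥ t/2 + h/2`), and `∑_{k ≥ n/4} (1/2)^(k/8) ≤ (n + 1) (1/2)^((n/4)/8)`, which tends to `0`.
-/

set_option autoImplicit false

namespace Pool.Agent.H95.SR

open Matrix Classical Pool.Agent.H66.SP Pool.Agent.H95.SQ

/-- the first three terms of `delT` for `k ≤ n` -/
theorem delT_first (n : ℕ) (hn : 2 ^ 50 ≤ n) (k : ℕ) (hk : k ≤ n) :
    (k : ℝ) * zn n ^ 20 + 2 * (k : ℝ) ^ 4 * zn n ^ 40 + 3 * k * qn n * (1 / 2) ^ Tn n ≤
      1 / (n : ℝ) ^ 2 := by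
  have hn1 : 0 < n := lt_of_lt_of_le (by norm_num) hn
  have hnR : (2 : ℝ) ^ 50 ≤ n := by exact_mod_cast hn
  have hn0 : (0 : ℝ) < n := by exact_mod_cast hn1
  have hkR : (k : ℝ) ≤ n := by exact_mod_cast hk
  have hk0 : (0 : ℝ) ≤ k := Nat.cast_nonneg k
  have hq : (qn n : ℝ) ≤ n := by exact_mod_cast qn_le n
  have h1 : (k : ℝ) * zn n ^ 20 ≤ 1 / 4 * (1 / (n : ℝ) ^ 2) := by
    calc (k : ℝ) * zn n ^ 20 ≤ n * (16 ^ 5 / (n : ℝ) ^ 5) :=
          mul_le_mul hkR (zn_pow20 n hn1) (pow_nonneg (zn_nonneg n) 20) hn0.le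
      _ = 16 ^ 5 / (n : ℝ) ^ 2 * (1 / (n : ℝ) ^ 2) := by field_simp
      _ ≤ 1 / 4 * (1 / (n : ℝ) ^ 2) := by
          apply mul_le_mul_of_nonneg_right _ (by positivity)
          calc (16 : ℝ) ^ 5 / (n : ℝ) ^ 2 ≤ 16 ^ 5 / ((2 : ℝ) ^ 50) ^ 2 := by
                apply div_le_div_of_nonneg_left (by positivity) (by positivity)
                exact pow_le_pow_left₀ (by positivity) hnR 2
            _ ≤ 1 / 4 := by norm_num
  have h2 : 2 * (k : ℝ) ^ 4 * zn n ^ 40 ≤ 1 / 4 * (1 / (n : ℝ) ^ 2) := by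
    calc 2 * (k : ℝ) ^ 4 * zn n ^ 40 ≤ 2 * (n : ℝ) ^ 4 * (16 ^ 10 / (n : ℝ) ^ 10) := by
          apply mul_le_mul _ (zn_pow40 n hn1) (pow_nonneg (zn_nonneg n) 40) (by positivity)
          exact mul_le_mul_of_nonneg_left (pow_le_pow_left₀ hk0 hkR 4) (by norm_num)
      _ = 2 * 16 ^ 10 / (n : ℝ) ^ 4 * (1 / (n : ℝ) ^ 2) := by field_simp
      _ ≤ 1 / 4 * (1 / (n : ℝ) ^ 2) := by
          apply mul_le_mul_of_nonneg_right _ (by positivity)
          calc 2 * (16 : ℝ) ^ 10 / (n : ℝ) ^ 4 ≤ 2 * 16 ^ 10 / ((2 : ℝ) ^ 50) ^ 4 := by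
                apply div_le_div_of_nonneg_left (by positivity) (by positivity)
                exact pow_le_pow_left₀ (by positivity) hnR 4
            _ ≤ 1 / 4 := by norm_num
  have h3 : 3 * k * qn n * (1 / 2 : ℝ) ^ Tn n ≤ 1 / 4 * (1 / (n : ℝ) ^ 2) := by
    calc 3 * k * qn n * (1 / 2 : ℝ) ^ Tn n
        ≤ 3 * n * n * ((1 / 2) ^ 100 / (n : ℝ) ^ 10) := by
          apply mul_le_mul _ (half_pow_Tn n hn1) (by positivity) (by positivity)
          apply mul_le_mul _ hq (Nat.cast_nonneg _) (by positivity)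
          linarith
      _ = 3 * (1 / 2) ^ 100 / (n : ℝ) ^ 6 * (1 / (n : ℝ) ^ 2) := by field_simp
      _ ≤ 1 / 4 * (1 / (n : ℝ) ^ 2) := by
          apply mul_le_mul_of_nonneg_right _ (by positivity)
          calc 3 * (1 / 2 : ℝ) ^ 100 / (n : ℝ) ^ 6 ≤ 3 * (1 / 2) ^ 100 / ((2 : ℝ) ^ 50) ^ 6 := by
                apply div_le_div_of_nonneg_left (by positivity) (by positivity)
                exact pow_le_pow_left₀ (by positivity) hnR 6
            _ ≤ 1 / 4 := by norm_num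
  have h4 : (0 : ℝ) ≤ 1 / (n : ℝ) ^ 2 := by positivity
  linarith

/-- `(n + 1) (1/2)^(n/32)` is at most `200 / n * ...` -/
theorem lastT_small (n : ℕ) (hn : 2 ^ 50 ≤ n) :
    ((n : ℝ) + 1) * (1 / 2) ^ (n / 4 / 8) ≤ 10000 / n := by
  have hnR : (2 : ℝ) ^ 50 ≤ n := by exact_mod_cast hn
  have h1 : n / 4 / 8 = n / 32 := by omega
  set m := n / 64 with hm
  have h2 : m * 2 ≤ n / 32 := by omega
  have h3 : n ≤ 64 * m + 63 := by omega
  have h4 : (m : ℝ) ≤ 2 ^ m := by exact_mod_cast (Nat.lt_two_pow_self (n := m)).le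
  have h5 : (n : ℝ) ≤ 64 * m + 63 := by exact_mod_cast h3
  have h6 : (1 / 2 : ℝ) ^ (n / 4 / 8) ≤ ((1 / 2) ^ m) ^ 2 := by
    rw [h1, ← pow_mul]
    exact pow_le_pow_of_le_one (by norm_num) (by norm_num) h2
  have h7 : (2 : ℝ) ^ 40 ≤ m := by
    norm_num at hnR ⊢
    linarith
  have hm0 : (0 : ℝ) < m := by
    have : (0 : ℝ) < 2 ^ 40 := by positivity
    linarith
  have hn0 : (0 : ℝ) < n := by
    have : (0 : ℝ) < 2 ^ 50 := by positivity
    linarith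
  have h8 : (1 / 2 : ℝ) ^ m ≤ 1 / m := by
    rw [_root_.one_div_pow]
    exact one_div_le_one_div_of_le hm0 h4
  have h9 : ((1 / 2 : ℝ) ^ m) ^ 2 ≤ (1 / m) ^ 2 := pow_le_pow_left₀ (by positivity) h8 2
  calc ((n : ℝ) + 1) * (1 / 2) ^ (n / 4 / 8) ≤ (64 * m + 64) * (1 / m) ^ 2 := by
        apply mul_le_mul _ (h6.trans h9) (by positivity) (by positivity)
        linarith
    _ ≤ (75 * m) * (1 / m) ^ 2 := by
        apply mul_le_mul_of_nonneg_right _ (by positivity)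
        norm_num at h7
        linarith
    _ = 75 / m := by field_simp
    _ ≤ 10000 / n := by
        rw [div_le_div_iff₀ hm0 hn0]
        norm_num at h7
        linarith

theorem numDT (t : ℕ) (ε : ℝ) (hε : 0 < ε) (ht : 192 * (1 / 2 : ℝ) ^ (t / 2) ≤ ε / 2) :
    ∃ n₀ : ℕ, ∀ n : ℕ, n₀ ≤ n →
      (∑ i ∈ Finset.Ico (n / 4) n, delT t n (qn n) (Tn n) i (zn n) +
        ∑ i ∈ Finset.Icc (n / 4) n, (1 / 2 : ℝ) ^ (i / 8)) ≤ ε := by
  refine ⟨max (2 ^ 50) ⌈20002 / ε⌉₊, ?_⟩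
  intro n hn'
  have hn : 2 ^ 50 ≤ n := (le_max_left _ _).trans hn'
  have hnε : 20002 / ε ≤ n := (Nat.le_ceil _).trans (by exact_mod_cast (le_max_right _ _).trans hn')
  have hn1 : 0 < n := lt_of_lt_of_le (by norm_num) hn
  have hn0 : (0 : ℝ) < n := by exact_mod_cast hn1
  have hz := zn_nonneg n
  have hA : ∑ i ∈ Finset.Ico (n / 4) n, delT t n (qn n) (Tn n) i (zn n) ≤ 1 / n + ε / 2 := by
    have h1 : ∑ i ∈ Finset.Ico (n / 4) n, delT t n (qn n) (Tn n) i (zn n) ≤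
        ∑ i ∈ Finset.range n, (1 / (n : ℝ) ^ 2 +
          48 * (1 / 2 : ℝ) ^ ((t + (n - 1 - i)) / 2)) := by
      refine le_trans (Finset.sum_le_sum (g := fun i => (1 / (n : ℝ) ^ 2 +
          48 * (1 / 2 : ℝ) ^ ((t + (n - 1 - i)) / 2))) ?_) ?_
      · intro i hi
        rw [Finset.mem_Ico] at hi
        unfold delT
        have := delT_first n hn i hi.2.le
        linarith
      · apply Finset.sum_le_sum_of_subset_of_nonneg
        · intro i hi
          rw [Finset.mem_Ico] at hi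
          exact Finset.mem_range.2 hi.2
        · intro i _ _
          positivity
    refine h1.trans ?_
    rw [Finset.sum_add_distrib, Finset.sum_const, Finset.card_range, nsmul_eq_mul]
    have h2 : ∑ i ∈ Finset.range n, 48 * (1 / 2 : ℝ) ^ ((t + (n - 1 - i)) / 2) =
        ∑ i ∈ Finset.range n, 48 * (1 / 2 : ℝ) ^ ((t + i) / 2) :=
      Finset.sum_range_reflect (fun i => 48 * (1 / 2 : ℝ) ^ ((t + i) / 2)) n
    rw [h2]
    have h3 : ∑ i ∈ Finset.range n, 48 * (1 / 2 : ℝ) ^ ((t + i) / 2) ≤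
        48 * (1 / 2) ^ (t / 2) * ∑ i ∈ Finset.range n, (1 / 2 : ℝ) ^ (i / 2) := by
      rw [Finset.mul_sum]
      refine Finset.sum_le_sum fun i _ => ?_
      rw [mul_assoc, ← pow_add]
      apply mul_le_mul_of_nonneg_left _ (by norm_num)
      apply pow_le_pow_of_le_one (by norm_num) (by norm_num)
      omega
    have h4 := sum_half_div_le n
    have h5 : (n : ℝ) * (1 / (n : ℝ) ^ 2) = 1 / n := by field_simp
    rw [h5]
    have h6 : 48 * (1 / 2) ^ (t / 2) * ∑ i ∈ Finset.range n, (1 / 2 : ℝ) ^ (i / 2) ≤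
        48 * (1 / 2) ^ (t / 2) * 4 := mul_le_mul_of_nonneg_left h4 (by positivity)
    have h7 : 48 * (1 / 2 : ℝ) ^ (t / 2) * 4 ≤ ε / 2 := by linarith
    linarith
  have hB : ∑ i ∈ Finset.Icc (n / 4) n, (1 / 2 : ℝ) ^ (i / 8) ≤ 10000 / n := by
    have h1 : ∑ i ∈ Finset.Icc (n / 4) n, (1 / 2 : ℝ) ^ (i / 8) ≤
        ∑ i ∈ Finset.Icc (n / 4) n, (1 / 2 : ℝ) ^ (n / 4 / 8) := by
      apply Finset.sum_le_sum
      intro i hi
      rw [Finset.mem_Icc] at hi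
      apply pow_le_pow_of_le_one (by norm_num) (by norm_num)
      exact Nat.div_le_div_right hi.1
    refine h1.trans ?_
    rw [Finset.sum_const, nsmul_eq_mul, Nat.card_Icc]
    refine le_trans (mul_le_mul_of_nonneg_right ?_ (by positivity)) (lastT_small n hn)
    have : n + 1 - n / 4 ≤ n + 1 := Nat.sub_le _ _
    exact_mod_cast this
  have hC : 10001 / (n : ℝ) ≤ ε / 2 := by
    rw [div_le_iff₀ hε] at hnε
    rw [div_le_iff₀ hn0]
    linarith
  have hD : 10001 / (n : ℝ) = 1 / n + 10000 / n := by ring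
  linarith

end Pool.Agent.H95.SR
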