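import Pool.Agent.H95.SQ.NumC
import Pool.Agent.H95.SR.Defs

/-!
# Job SR-NumE: numerics of the final step, with parameters

As `numE` in `Pool/Agent/H95/SQ/NumC.lean` (proved; its lemmas `zn_pow20`, `zn_pow320`, `half_pow_Tn` may
be used).  With fixed `m, t, a`: `n (17/16)^60 16^40 z^20 ≤ C / n^4`,
`2 n^4 (17/16)^m 16^80 z^320 ≤ C' / n^76`, `q n (0.505)^(2 a T) ≤ n^2 (1/2)^T ≤ 1 / n^8`
(`0.505^2 ≤ 1/2`, `a ≥ 1`), all tend to `0`; the last term is at most `ε / 2` by hypothesis.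

`exists_params`: choose first an even `t ≥ 30` with `192 (1/2)^(t/2) ≤ ε / 2`, then `a`: the expression is
`16 * (17/16 * 16)^t * ((17/16)^2 * 1.01 / 2)^a` (for `a ≥ 3`), and `(17/16)^2 * 1.01 / 2 < 1`.
-/

set_option autoImplicit false

namespace Pool.Agent.H95.SR

open Matrix Classical Pool.Agent.H66.SP Pool.Agent.H95.SQ

theorem NumE_div_pow (C n : ℝ) (hC : 0 ≤ C) (hn : 1 ≤ n) (k : ℕ) (hk : 1 ≤ k) :
    C / n ^ k ≤ C / n := by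
  apply div_le_div_of_nonneg_left hC (by linarith)
  calc n = n ^ 1 := (pow_one n).symm
    _ ≤ n ^ k := pow_le_pow_right₀ hn hk

theorem NumE_first (n : ℕ) (hn : 1 ≤ n) :
    (n : ℝ) * ((17 / 16) ^ 60 * 16 ^ 40 * zn n ^ 20) ≤ ((17 / 16) ^ 60 * 16 ^ 40 * 16 ^ 5) / n := by
  have hn0 : (0 : ℝ) < n := by exact_mod_cast hn
  have hn1 : (1 : ℝ) ≤ n := by exact_mod_cast hn
  have h1 := zn_pow20 n hn
  generalize hc : ((17 / 16 : ℝ)) ^ 60 * 16 ^ 40 = c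
  have hc0 : 0 ≤ c := by rw [← hc]; positivity
  generalize hd : (16 : ℝ) ^ 5 = d at h1 ⊢
  have hd0 : 0 ≤ d := by rw [← hd]; positivity
  calc (n : ℝ) * (c * zn n ^ 20) ≤ (n : ℝ) * (c * (d / (n : ℝ) ^ 5)) := by
        apply mul_le_mul_of_nonneg_left _ hn0.le
        exact mul_le_mul_of_nonneg_left h1 hc0
    _ = (c * d) / (n : ℝ) ^ 4 := by field_simp
    _ ≤ (c * d) / n := NumE_div_pow _ _ (by positivity) hn1 4 (by norm_num)

theorem NumE_second (m n : ℕ) (hn : 1 ≤ n) :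
    2 * (n : ℝ) ^ 4 * ((17 / 16) ^ m * 16 ^ 80 * zn n ^ 320)
      ≤ (2 * ((17 / 16) ^ m * 16 ^ 80 * 16 ^ 80)) / n := by
  have hn0 : (0 : ℝ) < n := by exact_mod_cast hn
  have hn1 : (1 : ℝ) ≤ n := by exact_mod_cast hn
  have h1 := zn_pow320 n hn
  generalize hd : (16 : ℝ) ^ 80 = d at h1 ⊢
  have hd0 : 0 ≤ d := by rw [← hd]; positivity
  generalize hc : ((17 / 16 : ℝ)) ^ m = c
  have hc0 : 0 ≤ c := by rw [← hc]; positivity
  calc 2 * (n : ℝ) ^ 4 * (c * d * zn n ^ 320) ≤ 2 * (n : ℝ) ^ 4 * (c * d * (d / (n : ℝ) ^ 80)) := by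
        apply mul_le_mul_of_nonneg_left _ (by positivity)
        exact mul_le_mul_of_nonneg_left h1 (by positivity)
    _ = (2 * (c * d * d)) / (n : ℝ) ^ 76 := by field_simp
    _ ≤ (2 * (c * d * d)) / n := NumE_div_pow _ _ (by positivity) hn1 76 (by norm_num)

theorem NumE_third (a n : ℕ) (ha : 1 ≤ a) (hn : 1 ≤ n) :
    (qn n : ℝ) * n * (0.505 : ℝ) ^ (2 * a * Tn n) ≤ 1 / n := by
  have hn0 : (0 : ℝ) < n := by exact_mod_cast hn
  have hn1 : (1 : ℝ) ≤ n := by exact_mod_cast hn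
  have hq : (qn n : ℝ) ≤ n := by exact_mod_cast qn_le n
  have hT := half_pow_Tn n hn
  have h505 : (0.505 : ℝ) ^ (2 * a * Tn n) ≤ (1 / 2) ^ Tn n := by
    rw [pow_mul]
    apply pow_le_pow_left₀ (by positivity)
    calc (0.505 : ℝ) ^ (2 * a) ≤ (0.505 : ℝ) ^ 2 :=
          pow_le_pow_of_le_one (by norm_num) (by norm_num) (by omega)
      _ ≤ 1 / 2 := by norm_num
  have h2 : (1 / 2 : ℝ) ^ Tn n ≤ 1 / (n : ℝ) ^ 10 := by
    refine hT.trans (div_le_div_of_nonneg_right ?_ (by positivity))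
    exact pow_le_one₀ (by norm_num) (by norm_num)
  calc (qn n : ℝ) * n * (0.505 : ℝ) ^ (2 * a * Tn n) ≤ (n * n) * (1 / (n : ℝ) ^ 10) := by
        apply mul_le_mul _ (h505.trans h2) (by positivity) (by positivity)
        exact mul_le_mul_of_nonneg_right hq hn0.le
    _ = 1 / (n : ℝ) ^ 8 := by field_simp
    _ ≤ 1 / n := NumE_div_pow _ _ (by norm_num) hn1 8 (by norm_num)

theorem NumE_small (K ε n : ℝ) (hε : 0 < ε) (hn : 0 < n) (h : 2 * K / ε ≤ n) : K / n ≤ ε / 2 := by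
  rw [div_le_iff₀ hn]
  rw [div_le_iff₀ hε] at h
  linarith

theorem numET (m t a : ℕ) (ha : 1 ≤ a) (ε : ℝ) (hε : 0 < ε)
    (h : (17 / 16 : ℝ) ^ m * 16 ^ t * (2 * 1.01 ^ a * (1 / 2) ^ (a - 3)) ≤ ε / 2) :
    ∃ n₀ : ℕ, ∀ n : ℕ, n₀ ≤ n →
      ((n : ℝ) * ((17 / 16) ^ 60 * 16 ^ 40 * zn n ^ 20) +
        2 * (n : ℝ) ^ 4 * ((17 / 16) ^ m * 16 ^ 80 * zn n ^ 320) +
        (17 / 16) ^ m * 16 ^ t *
          (qn n * n * (0.505 : ℝ) ^ (2 * a * Tn n) + 2 * 1.01 ^ a * (1 / 2) ^ (a - 3))) ≤ ε := by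
  set K1 : ℝ := (17 / 16) ^ 60 * 16 ^ 40 * 16 ^ 5 with hK1
  set K2 : ℝ := 2 * ((17 / 16) ^ m * 16 ^ 80 * 16 ^ 80) with hK2
  set K3 : ℝ := (17 / 16) ^ m * 16 ^ t with hK3
  have k1 : 0 ≤ K1 := by rw [hK1]; positivity
  have k2 : 0 ≤ K2 := by rw [hK2]; positivity
  have k3 : 0 ≤ K3 := by rw [hK3]; positivity
  obtain ⟨N, hN⟩ := exists_nat_ge (2 * (K1 + K2 + K3) / ε)
  refine ⟨max N 1, ?_⟩
  intro n hn
  have hn1 : 1 ≤ n := (le_max_right _ _).trans hn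
  have hnN : (N : ℝ) ≤ n := by exact_mod_cast (le_max_left _ _).trans hn
  have hn0 : (0 : ℝ) < n := by exact_mod_cast hn1
  have h1 := NumE_first n hn1
  have h2 := NumE_second m n hn1
  have h3 := mul_le_mul_of_nonneg_left (NumE_third a n ha hn1) k3
  have h4 : (K1 + K2 + K3) / n ≤ ε / 2 := NumE_small _ _ _ hε hn0 (hN.trans hnN)
  have e : (K1 + K2 + K3) / n = K1 / n + K2 / n + K3 * (1 / n) := by ring
  rw [e] at h4
  rw [mul_add K3]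
  rw [← hK1] at h1
  rw [← hK2] at h2
  clear_value K1 K2 K3
  clear hK1 hK2 hK3 hN
  linarith

theorem exists_params (ε : ℝ) (hε : 0 < ε) : ∃ t a : ℕ, 30 ≤ t ∧ 185 ≤ a ∧
    192 * (1 / 2 : ℝ) ^ (t / 2) ≤ ε / 2 ∧
    (17 / 16 : ℝ) ^ (t + 2 * a) * 16 ^ t * (2 * 1.01 ^ a * (1 / 2) ^ (a - 3)) ≤ ε / 2 := by
  obtain ⟨k, hk⟩ := exists_pow_lt_of_lt_one (show 0 < ε / 384 by positivity)
    (show (1 / 2 : ℝ) < 1 by norm_num)
  set u := max k 15 with hu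
  have hu1 : k ≤ u := le_max_left _ _
  have hu2 : 15 ≤ u := le_max_right _ _
  have hr1 : (17 / 16 : ℝ) ^ 2 * 1.01 * (1 / 2) < 1 := by norm_num
  have hr0 : 0 ≤ (17 / 16 : ℝ) ^ 2 * 1.01 * (1 / 2) := by norm_num
  obtain ⟨l, hl⟩ := exists_pow_lt_of_lt_one
    (show 0 < ε / (2 * (16 * ((17 / 16) ^ (2 * u) * 16 ^ (2 * u)))) by positivity) hr1
  set a := max l 185 with ha
  have ha1 : l ≤ a := le_max_left _ _
  have ha2 : 185 ≤ a := le_max_right _ _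
  refine ⟨2 * u, a, by omega, ha2, ?_, ?_⟩
  · rw [Nat.mul_div_cancel_left _ (by norm_num : 0 < 2)]
    have h1 : (1 / 2 : ℝ) ^ u ≤ (1 / 2) ^ k := pow_le_pow_of_le_one (by norm_num) (by norm_num) hu1
    linarith
  · have h1 : ((17 / 16 : ℝ) ^ 2 * 1.01 * (1 / 2)) ^ a ≤ ((17 / 16 : ℝ) ^ 2 * 1.01 * (1 / 2)) ^ l :=
      pow_le_pow_of_le_one hr0 hr1.le ha1
    have h2 : (1 / 2 : ℝ) ^ (a - 3) = 8 * (1 / 2) ^ a := by
      obtain ⟨b, hb⟩ : ∃ b, a = b + 3 := ⟨a - 3, by omega⟩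
      rw [hb, Nat.add_sub_cancel, pow_add]
      ring
    have h3 : (17 / 16 : ℝ) ^ (2 * u + 2 * a) * 16 ^ (2 * u) * (2 * 1.01 ^ a * (1 / 2) ^ (a - 3))
        = (16 * ((17 / 16) ^ (2 * u) * 16 ^ (2 * u))) * ((17 / 16 : ℝ) ^ 2 * 1.01 * (1 / 2)) ^ a := by
      rw [h2, mul_pow, mul_pow, ← pow_mul, pow_add]
      ring
    rw [h3]
    set D : ℝ := 16 * ((17 / 16) ^ (2 * u) * 16 ^ (2 * u)) with hD
    have hD0 : 0 < D := by rw [hD]; positivity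
    have h4 := h1.trans hl.le
    calc D * ((17 / 16 : ℝ) ^ 2 * 1.01 * (1 / 2)) ^ a ≤ D * (ε / (2 * D)) :=
          mul_le_mul_of_nonneg_left h4 hD0.le
      _ = ε / 2 := by field_simp

end Pool.Agent.H95.SR
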