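import Pool.Agent.H95.SQ.Iso
import Pool.Agent.H95.SR.Defs

/-!
# The invariant with parameter is isomorphism invariant (copy of `SQ/Iso.lean`)
-/

set_option autoImplicit false

namespace Pool.Agent.H95.SR

open Matrix Classical Pool.Agent.H66.SP Pool.Agent.H95.SQ

theorem okt_iso (t n q p₀ : ℕ) [Fact p₀.Prime] {V W : Type*} [Fintype V] [Fintype W]
    [DecidableEq V] [DecidableEq W] {G : SimpleGraph V} {H : SimpleGraph W} (φ : G ≃g H) :
    OKT t n q p₀ G ↔ OKT t n q p₀ H := by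
  have hc : Fintype.card V = Fintype.card W := Fintype.card_congr φ.toEquiv
  unfold OKT
  rw [ns_iso φ, hc]
  constructor
  · rintro ⟨h1, h2, h3⟩
    refine ⟨h1, fun μ => (mult_iso φ μ) ▸ h2 μ, fun hn => ⟨?_, ?_⟩⟩
    · intro p _ μ hp
      exact (mult_iso φ μ) ▸ (h3 hn).1 p μ hp
    · intro p _ μ hp
      exact (mult_iso φ μ) ▸ (h3 hn).2 p μ hp
  · rintro ⟨h1, h2, h3⟩
    refine ⟨h1, fun μ => (mult_iso φ μ).symm ▸ h2 μ, fun hn => ⟨?_, ?_⟩⟩
    · intro p _ μ hp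
      exact (mult_iso φ μ).symm ▸ (h3 hn).1 p μ hp
    · intro p _ μ hp
      exact (mult_iso φ μ).symm ▸ (h3 hn).2 p μ hp

end Pool.Agent.H95.SR
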