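import Pool.Agent.H95.SQ.StepB
import Pool.Agent.H95.SR.Defs

/-!
# Job SR-StepB: the bad events of one exposure step, with parameter

Copy the proof of `card_bad_le` in `Pool/Agent/H95/SQ/StepB.lean` with `t ≥ 6` instead of `30`.
(`card_bad_le`.  PROOF.  Let `k = card V`, `OKT t n q p₀ G`, `n/4 ≤ k < n`.  The set of
`b` with `BadO p₀ 40 G b` has at most `2^k (k z^20)` elements (`step_one`, `M = 40`, `T = 40`,
`N = N₁`, `min (41/2) 40 = 20`).  If `n/2 ≤ k` then `2 (n/4) ≤ n/2 ≤ k`, so all multiplicities in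
characteristic `p₀` are at most `max 40 0 = 40`; `exists_ctl60` and `ctlC_of_ctlP` give a controlling
`b₀ : Fin 60 → V → Bool` over `ℂ`, and `step_large` with `M = 80 + (n - 1 - k) > 60`, `T = 40`
bounds the number of `b` with `BadL` by `2^k (2 k^4 z^40)` (`min ((M+1)/2) 40 = 40`), and
`step_small` with `M = t + (n - 1 - k)`, `T = T₂`, `N = N₂` gives the last two terms.)
-/

set_option autoImplicit false

namespace Pool.Agent.H95.SR

open Matrix Classical Pool.Agent.H66.SP Pool.Agent.H95.SQ

theorem card_bad_le (t n q p₀ N₁ N₂ T₂ : ℕ) (z : ℝ) [Fact p₀.Prime] {V : Type*} [Fintype V]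
    [DecidableEq V] (G : SimpleGraph V) (ht : 6 ≤ t) (hP : PP q p₀ N₁ N₂ T₂ (Fintype.card V) z)
    (hk : Fintype.card V < n) (hG : OKT t n q p₀ G) :
    (((Finset.univ : Finset (V → Bool)).filter (fun b => BadO p₀ 40 G b ∨
      (n / 2 ≤ Fintype.card V ∧ (BadS q (t + (n - 1 - Fintype.card V)) G b ∨
        BadL q (80 + (n - 1 - Fintype.card V)) G b)))).card : ℝ) ≤
      2 ^ Fintype.card V * delT t n q T₂ (Fintype.card V) z := by
  obtain ⟨hNS, hm, -⟩ := hG
  have hz0 := hP.hz0
  have h1 := step_one p₀ G (Fintype.card V / 400) 40 N₁ 40 hNS (by norm_num) hP.hN₁ (by norm_num)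
    z (hP.hL p₀ Fact.out hP.hq) hP.hz1
  have e1 : min ((40 + 1) / 2) 40 = 20 := by norm_num
  rw [e1] at h1
  have hp2 : (0 : ℝ) < 2 ^ Fintype.card V := by positivity
  by_cases hn : n / 2 ≤ Fintype.card V
  · have hmult : ∀ μ : KK p₀, mult (adj (KK p₀) G) μ ≤ 40 := by
      intro μ
      have h2 := hm μ
      have h3 : max 40 (2 * (n / 4) - Fintype.card V) = 40 := by
        apply max_eq_left
        omega
      rwa [h3] at h2
    obtain ⟨b₀, hb₀⟩ := exists_ctl60 p₀ G (Fintype.card V / 400) 40 N₁ hNS (by norm_num) hP.hN₁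
      z hz0 (hP.hL p₀ Fact.out hP.hq) hP.hz1 hmult hP.hC
    have hb₁ := ctlC_of_ctlP p₀ G b₀ hb₀
    have h2 := step_large G q (Fintype.card V / 400) 40 N₁ (80 + (n - 1 - Fintype.card V)) 60
      hNS (by norm_num) hP.hN₁ z hz0.le hP.hL hP.hz1 b₀ hb₁ (by omega)
    have e2 : min ((80 + (n - 1 - Fintype.card V) + 1) / 2) 40 = 40 := by
      apply min_eq_right
      omega
    rw [e2] at h2
    have hT2 := hP.hT₂
    have h3 := step_small G q (Fintype.card V / 400) T₂ N₂ (t + (n - 1 - Fintype.card V))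
      hNS (by omega) hP.hN₂ (by omega) hP.hS
    have hsub : (Finset.univ : Finset (V → Bool)).filter (fun b => BadO p₀ 40 G b ∨
      (n / 2 ≤ Fintype.card V ∧ (BadS q (t + (n - 1 - Fintype.card V)) G b ∨
        BadL q (80 + (n - 1 - Fintype.card V)) G b))) ⊆
        (Finset.univ : Finset (V → Bool)).filter (fun b => BadO p₀ 40 G b) ∪
        ((Finset.univ : Finset (V → Bool)).filter
          (fun b => BadS q (t + (n - 1 - Fintype.card V)) G b) ∪
        (Finset.univ : Finset (V → Bool)).filter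
          (fun b => BadL q (80 + (n - 1 - Fintype.card V)) G b)) := by
      intro b hb
      rw [Finset.mem_filter] at hb
      rw [Finset.mem_union, Finset.mem_union, Finset.mem_filter, Finset.mem_filter,
        Finset.mem_filter]
      rcases hb.2 with h1 | ⟨-, h1 | h1⟩
      · exact Or.inl ⟨hb.1, h1⟩
      · exact Or.inr (Or.inl ⟨hb.1, h1⟩)
      · exact Or.inr (Or.inr ⟨hb.1, h1⟩)
    have h4 := (Finset.card_le_card hsub).trans ((Finset.card_union_le _ _).trans
      (Nat.add_le_add_left (Finset.card_union_le _ _) _))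
    have h5 : (((Finset.univ : Finset (V → Bool)).filter (fun b => BadO p₀ 40 G b ∨
      (n / 2 ≤ Fintype.card V ∧ (BadS q (t + (n - 1 - Fintype.card V)) G b ∨
        BadL q (80 + (n - 1 - Fintype.card V)) G b)))).card : ℝ) ≤
        (((Finset.univ : Finset (V → Bool)).filter (fun b => BadO p₀ 40 G b)).card : ℝ) +
        ((((Finset.univ : Finset (V → Bool)).filter
          (fun b => BadS q (t + (n - 1 - Fintype.card V)) G b)).card : ℝ) +
        (((Finset.univ : Finset (V → Bool)).filter
          (fun b => BadL q (80 + (n - 1 - Fintype.card V)) G b)).card : ℝ)) := by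
      exact_mod_cast h4
    refine h5.trans ?_
    refine (add_le_add h1 (add_le_add h3 h2)).trans (le_of_eq ?_)
    unfold delT
    ring
  · have hsub : (Finset.univ : Finset (V → Bool)).filter (fun b => BadO p₀ 40 G b ∨
      (n / 2 ≤ Fintype.card V ∧ (BadS q (t + (n - 1 - Fintype.card V)) G b ∨
        BadL q (80 + (n - 1 - Fintype.card V)) G b))) ⊆
        (Finset.univ : Finset (V → Bool)).filter (fun b => BadO p₀ 40 G b) := by
      intro b hb
      rw [Finset.mem_filter] at hb ⊢
      rcases hb.2 with h2 | ⟨h2, -⟩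
      · exact ⟨hb.1, h2⟩
      · exact absurd h2 hn
    have h2 : (((Finset.univ : Finset (V → Bool)).filter (fun b => BadO p₀ 40 G b ∨
      (n / 2 ≤ Fintype.card V ∧ (BadS q (t + (n - 1 - Fintype.card V)) G b ∨
        BadL q (80 + (n - 1 - Fintype.card V)) G b)))).card : ℝ) ≤
        (((Finset.univ : Finset (V → Bool)).filter (fun b => BadO p₀ 40 G b)).card : ℝ) := by
      exact_mod_cast Finset.card_le_card hsub
    refine (h2.trans h1).trans (mul_le_mul_of_nonneg_left ?_ hp2.le)
    unfold delT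
    have a1 : (0 : ℝ) ≤ 2 * (Fintype.card V : ℝ) ^ 4 * z ^ 40 := by positivity
    have a2 : (0 : ℝ) ≤ 3 * (Fintype.card V : ℝ) * q * (1 / 2) ^ T₂ := by positivity
    have a3 : (0 : ℝ) ≤ 48 * (1 / 2) ^ ((t + (n - 1 - Fintype.card V)) / 2) := by positivity
    linarith

end Pool.Agent.H95.SR
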