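import Pool.Agent.H95.SQ.Tr
import Pool.Agent.H95.SR.Defs

/-!
# The invariant with parameter is preserved by a step without bad event (copy of `SQ/Tr.lean`)
-/

set_option autoImplicit false

namespace Pool.Agent.H95.SR

open Matrix Classical Pool.Agent.H66.SP Pool.Agent.H95.SQ

theorem okt_base (t n q p₀ : ℕ) [Fact p₀.Prime] (hn : 2 ≤ n) {V : Type*} [Fintype V]
    [DecidableEq V] (G : SimpleGraph V) (hV : Fintype.card V = n / 4)
    (hNS : NS (Fintype.card V / 400) G) : OKT t n q p₀ G := by
  refine ⟨hNS, ?_, ?_⟩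
  · intro μ
    have h := mult_le_card (adj (KK p₀) G) μ
    refine le_trans h (le_trans ?_ (le_max_right _ _))
    omega
  · intro h
    omega

theorem okt_ext (t n q p₀ : ℕ) [Fact p₀.Prime] {V : Type*} [Fintype V] [DecidableEq V]
    (G : SimpleGraph V) (b : V → Bool) (hk : Fintype.card V < n) (hG : OKT t n q p₀ G)
    (hNS : NS ((Fintype.card V + 1) / 400) (ext G b)) (h0 : ¬ BadO p₀ 40 G b)
    (hS : n / 2 ≤ Fintype.card V → ¬ BadS q (t + (n - 1 - Fintype.card V)) G b)
    (hL : n / 2 ≤ Fintype.card V → ¬ BadL q (80 + (n - 1 - Fintype.card V)) G b) :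
    OKT t n q p₀ (ext G b) := by
  have hcard : Fintype.card (V ⊕ Unit) = Fintype.card V + 1 := by simp
  obtain ⟨_, hG2, hG3⟩ := hG
  refine ⟨?_, ?_, ?_⟩
  · rw [hcard]
    exact hNS
  · intro μ
    rw [hcard]
    have h1 := hG2 μ
    rcases tr_step G b 40 h0 μ with h2 | h2 <;> omega
  · rw [hcard]
    intro hn
    by_cases hk2 : n / 2 ≤ Fintype.card V
    · obtain ⟨h3, h4⟩ := hG3 hk2
      constructor
      · intro p _ μ hp
        have h1 := h3 p μ hp
        have hb : ¬ BadO p (t + (n - 1 - Fintype.card V)) G b := fun hb =>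
          hS hk2 ⟨p, inferInstance, hp, hb⟩
        rcases tr_step G b _ hb μ with h2 | h2 <;> omega
      · intro p _ μ hp
        have h1 := h4 p μ hp
        have hb : ¬ BadO p (80 + (n - 1 - Fintype.card V)) G b := fun hb =>
          hL hk2 ⟨p, inferInstance, hp, hb⟩
        rcases tr_step G b _ hb μ with h2 | h2 <;> omega
    · constructor
      · intro p _ μ _
        have h := mult_le_card (adj (KK p) (ext G b)) μ
        rw [hcard] at h
        omega
      · intro p _ μ _
        have h := mult_le_card (adj (KK p) (ext G b)) μ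
        rw [hcard] at h
        omega

end Pool.Agent.H95.SR
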