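import Pool.Agent.H66.SP.Rec
import Pool.Agent.H95.SR.Iso
import Pool.Agent.H95.SR.StepB
import Pool.Agent.H95.SR.Tr

/-!
# Counting for one exposure step, with parameter (copy of `SQ/Step.lean`)
-/

set_option autoImplicit false

namespace Pool.Agent.H95.SR

open Matrix Classical Pool.Agent.H66.SP Pool.Agent.H95.SQ

private theorem step_unit (H : SimpleGraph Unit) : H = ⊥ := by
  ext a b
  have hab : a = b := Subsingleton.elim a b
  subst hab
  simp

private theorem step_sum (k : ℕ) (P : SimpleGraph (Fin (k + 1)) → Prop)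
    (Q : SimpleGraph (Fin k ⊕ Unit) → Prop)
    (h : ∀ (G : SimpleGraph (Fin (k + 1))) (H : SimpleGraph (Fin k ⊕ Unit)), G ≃g H →
      (P G ↔ Q H)) :
    ((Finset.univ : Finset (SimpleGraph (Fin (k + 1)))).filter P).card =
      ∑ G : SimpleGraph (Fin k), ((Finset.univ : Finset (Fin k → Bool)).filter
        (fun b => Q (H66.SP.ext G b))).card := by
  have e : Fin (k + 1) ≃ Fin k ⊕ Unit :=
    finSuccEquivLast.trans (Equiv.optionEquivSumPUnit.{0} (Fin k))
  have h1 : ((Finset.univ : Finset (SimpleGraph (Fin k ⊕ Unit))).filter Q).card =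
      ∑ G : SimpleGraph (Fin k), ∑ H : SimpleGraph Unit,
        ((Finset.univ : Finset (Unit → Fin k → Bool)).filter
          (fun b => Q (glue G b H))).card := by
    convert card_filter_glue (V := Fin k) (R := Unit) Q
  have h2 : ((Finset.univ : Finset (SimpleGraph (Fin (k + 1)))).filter P).card =
      ((Finset.univ : Finset (SimpleGraph (Fin k ⊕ Unit))).filter Q).card := by
    refine Finset.card_equiv e.simpleGraph (fun G => ?_)
    simp only [Finset.mem_filter, Finset.mem_univ, true_and]
    exact h G _ (SimpleGraph.Iso.comap e.symm G).symm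
  rw [h2, h1]
  refine Finset.sum_congr rfl (fun G _ => ?_)
  rw [Finset.sum_eq_single (⊥ : SimpleGraph Unit)]
  · refine Finset.card_equiv (Equiv.funUnique Unit (Fin k → Bool)) (fun b => ?_)
    simp only [Finset.mem_filter, Finset.mem_univ, true_and]
    have h : glue G b ⊥ = H66.SP.ext G ((Equiv.funUnique Unit (Fin k → Bool)) b) := by
      unfold H66.SP.ext
      congr 1
    rw [h]
  · intro H _ hH
    exact absurd (step_unit H) hH
  · intro h
    exact absurd (Finset.mem_univ _) h

theorem card_step (t n q p₀ N₁ N₂ T₂ k : ℕ) (z : ℝ) [Fact p₀.Prime]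
    (ht : 6 ≤ t) (hP : PP q p₀ N₁ N₂ T₂ k z) (hk : k < n) :
    (((Finset.univ : Finset (SimpleGraph (Fin (k + 1)))).filter
      (fun G => ¬ OKT t n q p₀ G)).card : ℝ) ≤
      (((Finset.univ : Finset (SimpleGraph (Fin k))).filter
        (fun G => ¬ OKT t n q p₀ G)).card : ℝ) * 2 ^ k +
      (Fintype.card (SimpleGraph (Fin k)) : ℝ) * (2 ^ k * delT t n q T₂ k z) +
      (((Finset.univ : Finset (SimpleGraph (Fin (k + 1)))).filter
        (fun G => ¬ NS ((k + 1) / 400) G)).card : ℝ) := by
  have hz := hP.hz0
  have hdel : 0 ≤ delT t n q T₂ k z := by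
    unfold delT
    positivity
  have e1 : ((Finset.univ : Finset (SimpleGraph (Fin (k + 1)))).filter
      (fun G => ¬ OKT t n q p₀ G)).card = ∑ G : SimpleGraph (Fin k),
        ((Finset.univ : Finset (Fin k → Bool)).filter
          (fun b => ¬ OKT t n q p₀ (H66.SP.ext G b))).card := by
    convert step_sum k (fun G => ¬ OKT t n q p₀ G) (fun G => ¬ OKT t n q p₀ G)
      (fun G H φ => not_congr (okt_iso t n q p₀ φ))
  have e2 : ((Finset.univ : Finset (SimpleGraph (Fin (k + 1)))).filter
      (fun G => ¬ NS ((k + 1) / 400) G)).card = ∑ G : SimpleGraph (Fin k),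
        ((Finset.univ : Finset (Fin k → Bool)).filter
          (fun b => ¬ NS ((k + 1) / 400) (H66.SP.ext G b))).card := by
    convert step_sum k (fun G => ¬ NS ((k + 1) / 400) G) (fun G => ¬ NS ((k + 1) / 400) G)
      (fun G H φ => not_congr (ns_iso φ _))
  rw [e1, e2]
  have key : ∀ G : SimpleGraph (Fin k),
      (((Finset.univ : Finset (Fin k → Bool)).filter
        (fun b => ¬ OKT t n q p₀ (H66.SP.ext G b))).card : ℝ) ≤
      (if ¬ OKT t n q p₀ G then (2 : ℝ) ^ k else 0) + 2 ^ k * delT t n q T₂ k z +
      (((Finset.univ : Finset (Fin k → Bool)).filter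
        (fun b => ¬ NS ((k + 1) / 400) (H66.SP.ext G b))).card : ℝ) := by
    intro G
    by_cases hG : OKT t n q p₀ G
    · rw [if_neg (not_not.mpr hG), zero_add]
      have hP' : PP q p₀ N₁ N₂ T₂ (Fintype.card (Fin k)) z := by
        rw [Fintype.card_fin]
        exact hP
      have hk' : Fintype.card (Fin k) < n := by
        rw [Fintype.card_fin]
        exact hk
      have h := card_bad_le t n q p₀ N₁ N₂ T₂ z G ht hP' hk' hG
      have hsub : (Finset.univ : Finset (Fin k → Bool)).filter (fun b => ¬ OKT t n q p₀ (H66.SP.ext G b)) ⊆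
          (Finset.univ : Finset (Fin k → Bool)).filter (fun b => BadO p₀ 40 G b ∨
            (n / 2 ≤ Fintype.card (Fin k) ∧ (BadS q (t + (n - 1 - Fintype.card (Fin k))) G b ∨
              BadL q (80 + (n - 1 - Fintype.card (Fin k))) G b))) ∪
          (Finset.univ : Finset (Fin k → Bool)).filter
            (fun b => ¬ NS ((k + 1) / 400) (H66.SP.ext G b)) := by
        intro b hb
        rw [Finset.mem_filter] at hb
        rw [Finset.mem_union, Finset.mem_filter, Finset.mem_filter]
        by_contra hc
        push Not at hc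
        obtain ⟨h1, h2⟩ := hc
        have h1 := h1 (Finset.mem_univ _)
        have h2 := h2 (Finset.mem_univ _)
        refine hb.2 (okt_ext t n q p₀ G b hk' hG ?_ h1.1 ?_ ?_)
        · rw [Fintype.card_fin]
          exact h2
        · exact fun h3 => (h1.2 h3).1
        · exact fun h3 => (h1.2 h3).2
      have h3 := (Finset.card_le_card hsub).trans (Finset.card_union_le _ _)
      have h4 : (((Finset.univ : Finset (Fin k → Bool)).filter
          (fun b => ¬ OKT t n q p₀ (H66.SP.ext G b))).card : ℝ) ≤
          (((Finset.univ : Finset (Fin k → Bool)).filter (fun b => BadO p₀ 40 G b ∨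
            (n / 2 ≤ Fintype.card (Fin k) ∧ (BadS q (t + (n - 1 - Fintype.card (Fin k))) G b ∨
              BadL q (80 + (n - 1 - Fintype.card (Fin k))) G b)))).card : ℝ) +
          (((Finset.univ : Finset (Fin k → Bool)).filter
            (fun b => ¬ NS ((k + 1) / 400) (H66.SP.ext G b))).card : ℝ) := by exact_mod_cast h3
      rw [Fintype.card_fin] at h h4
      linarith
    · rw [if_pos hG]
      have h : ((Finset.univ : Finset (Fin k → Bool)).filter
        (fun b => ¬ OKT t n q p₀ (H66.SP.ext G b))).card ≤ 2 ^ k := by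
        refine (Finset.card_filter_le _ _).trans ?_
        rw [Finset.card_univ, Fintype.card_fun, Fintype.card_bool, Fintype.card_fin]
      have h' : (((Finset.univ : Finset (Fin k → Bool)).filter
        (fun b => ¬ OKT t n q p₀ (H66.SP.ext G b))).card : ℝ) ≤ 2 ^ k := by exact_mod_cast h
      have h2 : (0 : ℝ) ≤ 2 ^ k * delT t n q T₂ k z := by positivity
      have h3 : (0 : ℝ) ≤ (((Finset.univ : Finset (Fin k → Bool)).filter
        (fun b => ¬ NS ((k + 1) / 400) (H66.SP.ext G b))).card : ℝ) := Nat.cast_nonneg _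
      linarith
  rw [Nat.cast_sum, Nat.cast_sum]
  refine (Finset.sum_le_sum (fun G _ => key G)).trans (le_of_eq ?_)
  rw [Finset.sum_add_distrib, Finset.sum_add_distrib, ← Finset.sum_filter, Finset.sum_const,
    Finset.sum_const, nsmul_eq_mul, nsmul_eq_mul, Finset.card_univ]

end Pool.Agent.H95.SR
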