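import Pool.Agent.H66.SP.Rec
import Pool.Agent.H95.SR.Step

/-!
# Induction over the vertices, with parameter (copy of `SQ/Rec2.lean`)
-/

set_option autoImplicit false

namespace Pool.Agent.H95.SR

open Matrix Classical Pool.Agent.H66.SP Pool.Agent.H95.SQ

theorem rec2_aux (t n q p₀ N₁ N₂ T₂ : ℕ) (z : ℝ) [Fact p₀.Prime] (ht : 6 ≤ t) (hn : 2 ≤ n)
    (hP : ∀ k, n / 4 ≤ k → k ≤ n → PP q p₀ N₁ N₂ T₂ k z)
    (hNS : ∀ k, n / 4 ≤ k → k ≤ n →
      (((Finset.univ : Finset (SimpleGraph (Fin k))).filter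
        (fun G => ¬ NS (k / 400) G)).card : ℝ) ≤
      (Fintype.card (SimpleGraph (Fin k)) : ℝ) * (1 / 2) ^ (k / 8))
    (k : ℕ) (hk4 : n / 4 ≤ k) : k ≤ n →
    (((Finset.univ : Finset (SimpleGraph (Fin k))).filter
      (fun G => ¬ OKT t n q p₀ G)).card : ℝ) ≤
      (Fintype.card (SimpleGraph (Fin k)) : ℝ) *
        (∑ i ∈ Finset.Ico (n / 4) k, delT t n q T₂ i z +
          ∑ i ∈ Finset.Icc (n / 4) k, (1 / 2 : ℝ) ^ (i / 8)) := by
  induction k, hk4 using Nat.le_induction with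
  | base =>
    intro hk
    have h1 := hNS (n / 4) le_rfl hk
    rw [Finset.Ico_self, Finset.sum_empty, Finset.Icc_self, Finset.sum_singleton, zero_add]
    refine le_trans ?_ h1
    refine Nat.cast_le.2 (Finset.card_le_card fun G hG => ?_)
    rw [Finset.mem_filter] at hG ⊢
    refine ⟨hG.1, fun h => hG.2 ?_⟩
    refine okt_base t n q p₀ hn G (Fintype.card_fin _) ?_
    rw [Fintype.card_fin]
    exact h
  | succ k hk4 ih =>
    intro hk
    have ih' := ih (by omega)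
    have h1 := card_step t n q p₀ N₁ N₂ T₂ k z ht (hP k hk4 (by omega)) (by omega)
    have h2 := hNS (k + 1) (by omega) hk
    have hc : (Fintype.card (SimpleGraph (Fin (k + 1))) : ℝ) =
        (Fintype.card (SimpleGraph (Fin k)) : ℝ) * 2 ^ k := by
      rw [rec_card_succ]; push_cast; ring
    rw [Finset.sum_Ico_succ_top hk4, Finset.sum_Icc_succ_top (by omega)]
    have h2k : (0 : ℝ) < 2 ^ k := by positivity
    have h3 := mul_le_mul_of_nonneg_right ih' h2k.le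
    refine h1.trans ?_
    rw [hc] at h2 ⊢
    calc _ ≤ (Fintype.card (SimpleGraph (Fin k)) : ℝ) *
        (∑ i ∈ Finset.Ico (n / 4) k, delT t n q T₂ i z +
          ∑ i ∈ Finset.Icc (n / 4) k, (1 / 2 : ℝ) ^ (i / 8)) * 2 ^ k +
        (Fintype.card (SimpleGraph (Fin k)) : ℝ) * (2 ^ k * delT t n q T₂ k z) +
        (Fintype.card (SimpleGraph (Fin k)) : ℝ) * 2 ^ k * (1 / 2) ^ ((k + 1) / 8) :=
          add_le_add (add_le_add h3 le_rfl) h2
      _ = _ := by ring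

theorem card_not_okt_le (t n q p₀ N₁ N₂ T₂ : ℕ) (z : ℝ) [Fact p₀.Prime] (ht : 6 ≤ t) (hn : 2 ≤ n)
    (hP : ∀ k, n / 4 ≤ k → k ≤ n → PP q p₀ N₁ N₂ T₂ k z)
    (hNS : ∀ k, n / 4 ≤ k → k ≤ n →
      (((Finset.univ : Finset (SimpleGraph (Fin k))).filter
        (fun G => ¬ NS (k / 400) G)).card : ℝ) ≤
      (Fintype.card (SimpleGraph (Fin k)) : ℝ) * (1 / 2) ^ (k / 8)) :
    (((Finset.univ : Finset (SimpleGraph (Fin n))).filter
      (fun G => ¬ OKT t n q p₀ G)).card : ℝ) ≤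
      (Fintype.card (SimpleGraph (Fin n)) : ℝ) *
        (∑ i ∈ Finset.Ico (n / 4) n, delT t n q T₂ i z +
          ∑ i ∈ Finset.Icc (n / 4) n, (1 / 2 : ℝ) ^ (i / 8)) :=
  rec2_aux t n q p₀ N₁ N₂ T₂ z ht hn hP hNS n (Nat.div_le_self n 4) le_rfl

end Pool.Agent.H95.SR
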