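import Pool.Agent.H95.SQ.Full2
import Pool.Agent.H95.SR.FullA

/-!
# Job SR-Full: all but `ε` of all graphs are generated by constantly many fixed vertices

Copy the proof of `card_not_full2` in `Pool/Agent/H95/SQ/Full2.lean` (`r = 60 + m`); for `R` with more than
`r` elements take a subset `R' ⊆ R` with exactly `r` elements and use
`Full G R' → Full G R` (`Submodule.span_mono`).
-/

set_option autoImplicit false

namespace Pool.Agent.H95.SR

open Matrix Classical Pool.Agent.H66.SP Pool.Agent.H95.SQ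

theorem full_mono {V : Type*} [Fintype V] [DecidableEq V] (G : SimpleGraph V) {R R' : Set V}
    (h : R ⊆ R') (hR : Full G R) : Full G R' := by
  unfold Full at hR ⊢
  rw [eq_top_iff] at hR ⊢
  refine hR.trans (Submodule.span_mono ?_)
  rintro _ ⟨k, u, hu, rfl⟩
  exact ⟨k, u, h hu, rfl⟩

/-- The version for sets with exactly `60 + m` elements. -/
theorem card_not_full_eq (ε : ℝ) (hε : 0 < ε) : ∃ r n₀ : ℕ, ∀ n : ℕ, n₀ ≤ n →
    ∀ R : Finset (Fin n), R.card = r →
    (((Finset.univ : Finset (SimpleGraph (Fin n))).filter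
      (fun G => ¬ Full G (R : Set (Fin n)))).card : ℝ) ≤
      ε * (Fintype.card (SimpleGraph (Fin n)) : ℝ) := by
  obtain ⟨m, m₀, hm₀⟩ := card_not_full_sum ε hε
  refine ⟨60 + m, m₀ + (60 + m), fun n hn R hR => ?_⟩
  obtain ⟨n₁, hn₁⟩ : ∃ n₁, n = n₁ + (60 + m) := ⟨n - (60 + m), by omega⟩
  -- the equivalence
  have e1 : {v : Fin n // v ∈ R} ≃ Fin 60 ⊕ Fin m := by
    apply Fintype.equivOfCardEq
    rw [Fintype.card_coe, hR, Fintype.card_sum, Fintype.card_fin, Fintype.card_fin]
  have e2 : {v : Fin n // v ∉ R} ≃ Fin n₁ := by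
    apply Fintype.equivOfCardEq
    rw [Fintype.card_subtype_compl, Fintype.card_coe, Fintype.card_fin, Fintype.card_fin, hR]
    omega
  let e : Fin n ≃ Fin n₁ ⊕ (Fin 60 ⊕ Fin m) :=
    ((Equiv.sumCompl (fun v : Fin n => v ∈ R)).symm.trans (Equiv.sumComm _ _)).trans
      (Equiv.sumCongr e2 e1)
  have he : e '' (R : Set (Fin n)) = Set.range Sum.inr := by
    ext w
    constructor
    · rintro ⟨v, hv, rfl⟩
      have hv' : v ∈ R := hv
      refine ⟨e1 ⟨v, hv'⟩, ?_⟩
      simp only [e, Equiv.trans_apply]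
      rw [Equiv.sumCompl_symm_apply_of_pos (p := fun v : Fin n => v ∈ R) hv']
      rfl
    · rintro ⟨r, rfl⟩
      refine ⟨(e1.symm r : Fin n), (e1.symm r).2, ?_⟩
      simp only [e, Equiv.trans_apply]
      rw [Equiv.sumCompl_symm_apply_of_pos (p := fun v : Fin n => v ∈ R) (e1.symm r).2]
      simp
  have hcard : ((Finset.univ : Finset (SimpleGraph (Fin n))).filter
      (fun G => ¬ Full G (R : Set (Fin n)))).card =
      ((Finset.univ : Finset (SimpleGraph (Fin n₁ ⊕ (Fin 60 ⊕ Fin m)))).filter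
      (fun K => ¬ Full K (Set.range Sum.inr))).card := by
    apply Finset.card_bij (fun G _ => e.simpleGraph G)
    · intro G hG
      rw [Finset.mem_filter] at hG ⊢
      refine ⟨Finset.mem_univ _, fun h => hG.2 ?_⟩
      rw [full_simpleGraph e G, he]
      exact h
    · intro G _ H _ h
      exact e.simpleGraph.injective h
    · intro K hK
      refine ⟨e.simpleGraph.symm K, ?_, by simp⟩
      rw [Finset.mem_filter] at hK ⊢
      refine ⟨Finset.mem_univ _, fun h => hK.2 ?_⟩
      rw [full_simpleGraph e, he, Equiv.apply_symm_apply] at h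
      exact h
  have hcg : Fintype.card (SimpleGraph (Fin n)) =
      Fintype.card (SimpleGraph (Fin n₁ ⊕ (Fin 60 ⊕ Fin m))) :=
    Fintype.card_congr e.simpleGraph
  have hmain := hm₀ n₁ (by omega)
  rw [← hcard, ← hcg] at hmain
  exact hmain

theorem card_not_full (ε : ℝ) (hε : 0 < ε) : ∃ r n₀ : ℕ, ∀ n : ℕ, n₀ ≤ n →
    ∀ R : Finset (Fin n), r ≤ R.card →
    (((Finset.univ : Finset (SimpleGraph (Fin n))).filter
      (fun G => ¬ Full G (R : Set (Fin n)))).card : ℝ) ≤
      ε * (Fintype.card (SimpleGraph (Fin n)) : ℝ) := by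
  obtain ⟨r, n₀, h⟩ := card_not_full_eq ε hε
  refine ⟨r, n₀, fun n hn R hR => ?_⟩
  obtain ⟨R', hR', hc⟩ := Finset.exists_subset_card_eq hR
  refine le_trans ?_ (h n hn R' hc)
  rw [Nat.cast_le]
  apply Finset.card_le_card
  intro G hG
  rw [Finset.mem_filter] at hG ⊢
  refine ⟨hG.1, fun hG' => hG.2 (full_mono G ?_ hG')⟩
  exact_mod_cast hR'

end Pool.Agent.H95.SR
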